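import Pool.Agent.Lib.MP_2c7063_coL.Main

/-!
# `k` consecutive serial symmetric exchanges in every large set

Let `A`, `B` be disjoint bases of a matroid (finite or infinite, any rank) and let `R` be a subset
of `A` with at least `4 ^ (k (k + 1) (k + 2))` elements.  There are distinct elements
`a 0, ..., a (k - 1)` of `R` and distinct elements `b 0, ..., b (k - 1)` of `B` such that the
exchange of `a j` and `b j`, `j < i`, turns `(A, B)` into a pair of bases, for all `i ≤ k`.
-/

namespace Pool.Agent.Results.MP_2c7063_co.ManyExchanges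

open Set

theorem result {α : Type*} (M : Matroid α) {A B : Set α} (hA : M.IsBase A) (hB : M.IsBase B)
    (hd : Disjoint A B) (k : ℕ) {R : Set α} (hR : R ⊆ A)
    (hk : (4 ^ (k * (k + 1) * (k + 2)) : ℕ) ≤ R.encard) :
    ∃ a b : ℕ → α, InjOn a (Iio k) ∧ InjOn b (Iio k) ∧ a '' Iio k ⊆ R ∧ b '' Iio k ⊆ B ∧
      ∀ i ≤ k, M.IsBase ((A \ a '' Iio i) ∪ b '' Iio i) ∧
        M.IsBase ((B \ b '' Iio i) ∪ a '' Iio i) :=
  Pool.Agent.Lib.MP_2c7063_coL.main hA hB hd k hR hk

end Pool.Agent.Results.MP_2c7063_co.ManyExchanges
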