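import Pool.Agent.Lib.MP_2c7063_coU.Final

/-!
# Gabow's cyclic orderings exist in truncations of unions of matroids

`B`, `B'` are disjoint bases of a matroid `M` with `r` elements and `N` is a matroid in which `B` and
`B'` are independent.  The sets with at most `r` elements that are independent in `N` are
independent in `M` (for instance, `M` is the truncation of `N` to rank `r`), or all of them are
independent in the dual of the restriction of `M` to `B ∪ B'`.  Let `A` be the union of all
`A' ⊆ B ∪ B'` with `|A'| = 2 r_N(A')` (`A` may be empty).  If the restriction `K = N | A`, or its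
dual, is a union of pieces, or nearly graphic, or if the bases `A ∩ B`, `A ∩ B'` of `K` have a good
cyclic ordering, then `B`, `B'` have a good cyclic ordering in `M`.  The pieces are the graphic and
the cographic matroids, the matroids of rank at most four, the strongly base orderable matroids, the
matroids in all of whose restrictions any two disjoint bases have good cyclic orderings, and the
matroids induced by a bipartite graph from a matroid that is graphic, cographic, of rank at most
four, or has good cyclic orderings in all its minors.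

Consequences.  The statement of the problem holds for the truncations of all unions of such matroids
and, if the ground set is `B ∪ B'`, for the duals of these truncations.  Examples are the `k`-fold
unions of cycle matroids and the count matroids of graphs, in which a set `J` of edges is independent
if and only if `|J'| ≤ k |V(J')| - l` for all nonempty `J' ⊆ J`, with `0 ≤ l ≤ k` (the union of `l`
copies of the cycle matroid and of `k - l` copies of the bicircular matroid), and their truncations.
The class of matroids in all of whose restrictions any two disjoint bases have good cyclic orderings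
is closed under truncations and unions.  In a counterexample with the fewest elements `M` is not
freer than the truncation to rank `r` of a matroid `N` of larger rank in which `B` and `B'` are
independent, since then `A ≠ B ∪ B'`.
-/

namespace Pool.Agent.Results.MP_2c7063_co.TruncatedUnions

open Set
open scoped Matroid

universe u

/-- `x 0, ..., x (r - 1)` is an ordering of `B`, `y 0, ..., y (r - 1)` is an ordering of `B'`, and
all windows of `r` cyclically consecutive entries of `x 0, ..., x (r - 1), y 0, ..., y (r - 1)` are
bases of `M`. -/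
def GoodOrdering {α : Type u} (M : Matroid α) (B B' : Set α) (r : ℕ) (x y : ℕ → α) : Prop :=
  InjOn x (Iio r) ∧ x '' Iio r = B ∧ InjOn y (Iio r) ∧ y '' Iio r = B' ∧
    ∀ i ≤ r, M.IsBase ((B \ x '' Iio i) ∪ y '' Iio i) ∧ M.IsBase ((B' \ y '' Iio i) ∪ x '' Iio i)

/-- `M` is the cycle matroid of a graph with vertex set `V` (loops and parallel edges allowed) in
which the edge `e` joins the vertices `u e` and `v e`: a set of edges is independent if and only if
the incidence vectors of its edges are linearly independent over the field with two elements. -/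
def Graphic {α : Type u} (M : Matroid α) : Prop :=
  ∃ (V : Type) (u v : α → V), ∀ J ⊆ M.E, M.Indep J ↔
    LinearIndepOn (ZMod 2)
      (fun e => (Finsupp.single (u e) 1 + Finsupp.single (v e) 1 : V →₀ ZMod 2)) J

/-- The contraction of a set `F` with `r(F) ≤ 4` and `2 r(F) ≤ |F| + 1` turns `M` into the cycle
matroid of a graph.  (Every graphic `M`, with `F` empty; every `M` with `M / e` graphic for an
element `e`, with `F = {e}`; every `M` of rank at most four with an even number `2 r(M)` of
elements, with `F = E`.) -/
def NearlyGraphic {α : Type u} (M : Matroid α) : Prop :=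
  ∃ F ⊆ M.E, M.eRk F ≤ 4 ∧ 2 * M.eRk F ≤ F.encard + 1 ∧ Graphic (M ／ F)

/-- Any two disjoint bases of a restriction of `M` to a finite set have a good cyclic ordering. -/
def Orderable {α : Type u} (M : Matroid α) : Prop :=
  ∀ P Q : Set α, P.Finite → Disjoint P Q → (M ↾ (P ∪ Q)).IsBase P → (M ↾ (P ∪ Q)).IsBase Q →
    ∃ k x y, GoodOrdering (M ↾ (P ∪ Q)) P Q k x y

/-- Graphic and cographic matroids, matroids of rank at most four, and matroids all of whose minors
have good cyclic orderings for any two disjoint bases that partition the ground set. -/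
def Basic {α : Type u} (M : Matroid α) : Prop :=
  Graphic M ∨ Graphic M✶ ∨ M.eRank ≤ 4 ∨ ∀ X : Set α, X.Finite → Orderable (M ／ X)

/-- `M` is induced from a finite matroid `G` with the property `Basic` by a bipartite graph `Γ`: a
subset of the ground set of `M` is independent if and only if it can be matched in `Γ` with an
independent set of `G`. -/
def Induced {α : Type u} (M : Matroid α) : Prop :=
  ∃ (β : Type u) (G : Matroid β) (Γ : α → β → Prop), G.E.Finite ∧ Basic G ∧
    ∀ J ⊆ M.E, M.Indep J ↔ ∃ φ : α → β, (∀ e ∈ J, Γ e (φ e)) ∧ InjOn φ J ∧ G.Indep (φ '' J)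

/-- Strongly base orderable matroids. -/
def StronglyBaseOrderable {α : Type u} (M : Matroid α) : Prop :=
  ∀ P Q : Set α, M.IsBase P → M.IsBase Q → ∃ σ : α → α, BijOn σ P Q ∧
    ∀ X ⊆ P, M.IsBase ((P \ X) ∪ σ '' X)

/-- The parts of the unions. -/
def Piece {α : Type u} (M : Matroid α) : Prop :=
  Basic M ∨ Induced M ∨ StronglyBaseOrderable M ∨ Orderable M

/-- `M` is the union of finite matroids `L 0, ..., L (n - 1)`, all of them pieces: a subset of the
ground set of `M` is independent if and only if it is the union of independent sets of the `L i`.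
(If this holds for `N`, it holds for every restriction of `N`.) -/
def UnionOfPieces {α : Type u} (M : Matroid α) : Prop :=
  ∃ (n : ℕ) (L : Fin n → Matroid α), (∀ i, (L i).E.Finite ∧ Piece (L i)) ∧
    ∀ J ⊆ M.E, M.Indep J ↔ ∃ f : Fin n → Set α, (∀ i, (L i).Indep (f i)) ∧ J = ⋃ i, f i

theorem result {α : Type u} {M N : Matroid α} {r : ℕ} (hr : 1 ≤ r)
    -- `B`, `B'` are disjoint bases of `M`
    {B B' : Set α} (hB : M.IsBase B) (hB' : M.IsBase B') (hd : Disjoint B B') (hBr : B.encard = r)
    -- they are independent in `N`
    (hBN : N.Indep B) (hBN' : N.Indep B')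
    -- `M` restricted to `B ∪ B'`, or its dual, is freer than the truncation to rank `r` of `N`
    (hN : (∀ J ⊆ B ∪ B', N.Indep J → J.encard ≤ r → M.Indep J) ∨
      (∀ J ⊆ B ∪ B', N.Indep J → J.encard ≤ r → (M ↾ (B ∪ B'))✶.Indep J))
    -- `A` is the largest subset of `B ∪ B'` with `|A| = 2 r_N(A)`
    {A : Set α} (hA : A = ⋃₀ {A' | A' ⊆ B ∪ B' ∧ A'.encard = 2 * N.eRk A'})
    (hgood : UnionOfPieces (N ↾ A) ∨ UnionOfPieces (N ↾ A)✶ ∨
      NearlyGraphic (N ↾ A) ∨ NearlyGraphic (N ↾ A)✶ ∨
      ∃ k x y, GoodOrdering (N ↾ A) (A ∩ B) (A ∩ B') k x y) :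
    ∃ x y, GoodOrdering M B B' r x y := by
  have hne : Nonempty α := by
    by_contra h
    have h0 : B = ∅ := by
      ext e
      exact absurd ⟨e⟩ h
    rw [h0, encard_empty] at hBr
    have h1 : 0 = r := by exact_mod_cast hBr
    omega
  have hbasic : ∀ (β : Type u) (G : Matroid β), Nonempty β → G.E.Finite → Basic G →
      Pool.Agent.Lib.MP_2c7063_coU.MOrd G := by
    rintro β G hβ hf (h | h | h | h)
    · exact Pool.Agent.Lib.MP_2c7063_coU.MOrd.of_cycle h
    · exact Pool.Agent.Lib.MP_2c7063_coU.MOrd.of_cocycle h hf
    · exact Pool.Agent.Lib.MP_2c7063_coU.MOrd.of_rank h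
    · exact h
  have hpiece : ∀ L : Matroid α, L.E.Finite → Piece L →
      Pool.Agent.Lib.MP_2c7063_coU.Sbo L ∨ Pool.Agent.Lib.MP_2c7063_coU.Low L := by
    rintro L hf (h | ⟨β, G, Γ, hGf, hG, h⟩ | h | h)
    · exact Or.inr (hbasic _ L hne hf h).ord.low
    · obtain ⟨φ, _⟩ := (h ∅ (empty_subset _)).1 L.empty_indep
      exact Or.inr (Pool.Agent.Lib.MP_2c7063_coU.Low.of_induced'
        (hbasic _ G ⟨φ (Classical.choice hne)⟩ hGf hG) h)
    · exact Or.inl h
    · exact Or.inr (Pool.Agent.Lib.MP_2c7063_coU.Ord.low h)
  have hunion : ∀ K : Matroid α, UnionOfPieces K → ∃ (n : ℕ) (L : Fin n → Matroid α),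
      Pool.Agent.Lib.MP_2c7063_coU.IsUnion K L ∧ ∀ i, (L i).E.Finite ∧
        (Pool.Agent.Lib.MP_2c7063_coS.IsCycleMatroid (L i)✶ ∨ (L i).eRank ≤ 4 ∨
          Pool.Agent.Lib.MP_2c7063_coU.Sbo (L i) ∨ Pool.Agent.Lib.MP_2c7063_coU.Low (L i)) := by
    rintro K ⟨n, L, hL, hK⟩
    exact ⟨n, L, hK, fun i => ⟨(hL i).1, Or.inr (Or.inr (hpiece _ (hL i).1 (hL i).2))⟩⟩
  refine Pool.Agent.Lib.MP_2c7063_coU.main hB hB' hd hBr hBN hBN' hN hA ?_
  rcases hgood with h | h | h | h | h
  · exact Or.inr (Or.inr (Or.inl (hunion _ h)))
  · exact Or.inr (Or.inr (Or.inr (Or.inl (hunion _ h))))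
  · exact Or.inl h
  · exact Or.inr (Or.inl h)
  · exact Or.inr (Or.inr (Or.inr (Or.inr h)))

end Pool.Agent.Results.MP_2c7063_co.TruncatedUnions
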