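import Pool.Agent.Lib.MP_2c7063_coTG.Final

/-!
# Gabow's cyclic orderings up to rotations of disjoint intervals

`B`, `C` are disjoint common bases, of finite size `r`, of two matroids `M`, `N` (for Gabow's
question `M = N`).  There are an ordering `x 0, ..., x (r - 1)` of `B`, an ordering
`y 0, ..., y (r - 1)` of `C` and a partition of `{0, ..., r - 1}` into intervals such that all
windows `{x i, ..., x (r - 1), y 0, ..., y (i - 1)}` are bases of `M` and all windows
`{z i, ..., z (r - 1), x 0, ..., x (i - 1)}` are bases of `N`, where `z` is `y` with every interval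
rotated by one step.  Inside an interval the diagonal exchanges are the only ones that give bases
of `M`, and the rotated diagonal exchanges are the only ones that give bases of `N`.
The orderings can start with any given serial symmetric exchange `a`, `b` of length `k`.  For
`M = N` there are many intervals and none has more than `(r + 1) / 2` elements; if all intervals
have one element, then `z = y` and `x 0, ..., x (r - 1), y 0, ..., y (r - 1)` is an ordering as in
Gabow's question.
-/

namespace Pool.Agent.Results.MP_2c7063_co.TwistedGabow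

open Set

theorem result {α : Type*} (M N : Matroid α) {B C : Set α} (hMB : M.IsBase B) (hMC : M.IsBase C)
    (hNB : N.IsBase B) (hNC : N.IsBase C) (hd : Disjoint B C) {r : ℕ} (hr : B.encard = r)
    -- a serial symmetric exchange of length `k` (for example `k = 0`)
    (k : ℕ) (a b : ℕ → α) (ha : InjOn a (Iio k)) (hb : InjOn b (Iio k)) (haB : a '' Iio k ⊆ B)
    (hbC : b '' Iio k ⊆ C)
    (hab : ∀ i ≤ k, M.IsBase ((B \ a '' Iio i) ∪ b '' Iio i) ∧
      N.IsBase ((C \ b '' Iio i) ∪ a '' Iio i)) :
    ∃ (x y z : ℕ → α) (c : ℕ → ℕ) (p : ℕ),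
      -- orderings of `B` and of `C`
      InjOn x (Iio r) ∧ InjOn y (Iio r) ∧ x '' Iio r = B ∧ y '' Iio r = C ∧
      -- the `p` intervals `{c n, ..., c (n + 1) - 1}`
      c 0 = 0 ∧ c p = r ∧ (∀ n < p, c n < c (n + 1)) ∧
      -- `z` is `y` with all intervals rotated by one step
      (∀ n < p, ∀ i, c n ≤ i → i < c (n + 1) →
        z i = y (if i + 1 = c (n + 1) then c n else i + 1)) ∧
      -- all windows
      (∀ i ≤ r, M.IsBase ((B \ x '' Iio i) ∪ y '' Iio i) ∧
        N.IsBase ((C \ z '' Iio i) ∪ x '' Iio i) ∧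
        (r : ℕ∞) ≤ N.eRk ((C \ y '' Iio i) ∪ x '' Iio i) + 1) ∧
      -- no other exchanges inside an interval
      (∀ n < p, ∀ I J, I ⊆ Ico (c n) (c (n + 1)) → J ⊆ Ico (c n) (c (n + 1)) →
        (M.IsBase ((B \ (x '' Iio (c n) ∪ x '' I)) ∪ (y '' Iio (c n) ∪ y '' J)) ↔ I = J) ∧
        (N.IsBase ((C \ (z '' Iio (c n) ∪ z '' J)) ∪ (x '' Iio (c n) ∪ x '' I)) ↔ I = J)) ∧
      -- the orderings start with the given exchange
      (∀ j < k, c (j + 1) = j + 1 ∧ x j = a j ∧ y j = b j) ∧
      -- one matroid: many intervals, none is longer than half of the rank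
      (M = N → r ≤ 12 * (Nat.log 2 r + 1) ^ 2 * (p + 1) ∧
        ∀ n < p, 2 * (c (n + 1) - c n) ≤ r + 1) :=
  Pool.Agent.Lib.MP_2c7063_coTG.final hMB hMC hNB hNC hd hr k a b ha hb haB hbC hab

end Pool.Agent.Results.MP_2c7063_co.TwistedGabow
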