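import Pool.Agent.Lib.MP_2c7063_coT.Final

/-!
# Orderings of two disjoint bases that are good up to elements of a given set

`B`, `B'` are disjoint bases of a matroid `M` of finite rank `r ≥ 1` and `S` is any set.  We look
for orderings `x 0, ..., x (r - 1)` of `B` and `y 0, ..., y (r - 1)` of `B'` such that the windows
`{x 0, ..., x (i - 1), y i, ..., y (r - 1)}` are bases for `i = 0, ..., r`, and for
`i = 0, ..., r - 1` the window `{x i, ..., x (r - 1), y 0, ..., y i}` of `r + 1` elements becomes a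
base after the deletion of an element of `S`.  They exist if and only if `S` meets every nonempty
set `A ⊆ B ∪ B'` with `|A| = 2 r(A)`, and then `y 0` can be every element for which the window with
`i = 0` has the required property.
-/

namespace Pool.Agent.Results.MP_2c7063_co.UpToOneElement

open Set

theorem result {α : Type*} (M : Matroid α) {B B' : Set α} (hB : M.IsBase B) (hB' : M.IsBase B')
    (hd : Disjoint B B') {r : ℕ} (hr0 : 1 ≤ r) (hr : B.encard = r) (S : Set α) :
    -- existence of the orderings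
    ((∃ x y : ℕ → α, InjOn x (Iio r) ∧ InjOn y (Iio r) ∧ x '' Iio r = B ∧ y '' Iio r = B' ∧
        (∀ i ≤ r, M.IsBase ((B' \ y '' Iio i) ∪ x '' Iio i)) ∧
        ∀ i < r, ∃ e ∈ S, M.IsBase (((B \ x '' Iio i) ∪ y '' Iio (i + 1)) \ {e})) ↔
      ∀ A ⊆ B ∪ B', A.Nonempty → A.encard = 2 * M.eRk A → (A ∩ S).Nonempty) ∧
    -- prescribed first element of the ordering of `B'`
    ((∀ A ⊆ B ∪ B', A.Nonempty → A.encard = 2 * M.eRk A → (A ∩ S).Nonempty) →
      ∀ t ∈ B', (∃ e ∈ S, M.IsBase (insert t B \ {e})) →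
      ∃ x y : ℕ → α, InjOn x (Iio r) ∧ InjOn y (Iio r) ∧ x '' Iio r = B ∧ y '' Iio r = B' ∧
        y 0 = t ∧ (∀ i ≤ r, M.IsBase ((B' \ y '' Iio i) ∪ x '' Iio i)) ∧
        ∀ i < r, ∃ e ∈ S, M.IsBase (((B \ x '' Iio i) ∪ y '' Iio (i + 1)) \ {e})) :=
  Pool.Agent.Lib.MP_2c7063_coT.up_to hr0 hB hB' hd hr

end Pool.Agent.Results.MP_2c7063_co.UpToOneElement
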